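import Pool.Agent.Helper74.HG.GoalsG

/-!
# Project HG, part 3, packet CHW (helper96): pairs with a given product in a finite chain ring
-/

set_option autoImplicit false

namespace Pool.Agent.Helper96.HG.CHW

section

variable {R : Type} [CommRing R] {π : R} {q M : ℕ}

/-- the hypotheses on the ring -/
structure Chain (R : Type) [CommRing R] (π : R) (q M : ℕ) : Prop where
  fin : Finite R
  hM : 1 ≤ M
  hq : 1 < q
  card : ∀ k, k ≤ M → Nat.card (Ideal.span {π ^ k} : Ideal R) = q ^ (M - k)
  rep : ∀ x : R, ∃ (u : Rˣ) (k : ℕ), k ≤ M ∧ x = u * π ^ k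

theorem mem_iff (j : ℕ) (x : R) : x ∈ Ideal.span {π ^ j} ↔ ∃ a, a * π ^ j = x :=
  Ideal.mem_span_singleton'

theorem anti {i j : ℕ} (h : i ≤ j) : (Ideal.span {π ^ j} : Ideal R) ≤ Ideal.span {π ^ i} := by
  rw [Ideal.span_singleton_le_span_singleton]
  exact pow_dvd_pow _ h

theorem le_of_mem (H : Chain R π q M) {i k : ℕ} (hi : i ≤ M) (hk : k ≤ M)
    (h : π ^ k ∈ (Ideal.span {π ^ i} : Ideal R)) : i ≤ k := by
  have := H.fin
  have h1 : (Ideal.span {π ^ k} : Ideal R) ≤ Ideal.span {π ^ i} :=
    (Ideal.span_singleton_le_iff_mem _).2 h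
  have h2 : Nat.card (Ideal.span {π ^ k} : Ideal R) ≤ Nat.card (Ideal.span {π ^ i} : Ideal R) :=
    Nat.card_mono (Set.toFinite _) h1
  rw [H.card k hk, H.card i hi] at h2
  have h3 := (Nat.pow_le_pow_iff_right H.hq).1 h2
  omega

theorem pow_M (H : Chain R π q M) : π ^ M = 0 := by
  have := H.fin
  have h1 := H.card M le_rfl
  rw [Nat.sub_self, pow_zero, Nat.card_eq_one_iff_unique] at h1
  have h2 := h1.1
  have h3 : (⟨π ^ M, Ideal.mem_span_singleton_self _⟩ : (Ideal.span {π ^ M} : Ideal R)) = 0 :=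
    Subsingleton.elim _ _
  exact congrArg Subtype.val h3

theorem ann (H : Chain R π q M) {a : ℕ} (ha : a ≤ M) (y : R) :
    π ^ a * y = 0 ↔ y ∈ (Ideal.span {π ^ (M - a)} : Ideal R) := by
  constructor
  · intro h
    obtain ⟨u, k, hk, rfl⟩ := H.rep y
    have h1 : π ^ (a + k) = 0 := by
      have h2 : (u : R) * π ^ (a + k) = 0 := by
        rw [← h, pow_add]
        ring
      exact (Units.mul_right_eq_zero u).1 h2
    by_cases hak : M ≤ a + k
    · rw [mem_iff]
      refine ⟨u * π ^ (k - (M - a)), ?_⟩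
      rw [mul_assoc, ← pow_add]
      congr 2
      omega
    · exfalso
      have h3 : π ^ (a + k) ∈ (Ideal.span {π ^ M} : Ideal R) := by
        rw [h1]
        exact Ideal.zero_mem _
      have h4 := le_of_mem H le_rfl (by omega) h3
      omega
  · intro h
    rw [mem_iff] at h
    obtain ⟨b, rfl⟩ := h
    calc π ^ a * (b * π ^ (M - a)) = b * (π ^ a * π ^ (M - a)) := by ring
      _ = 0 := by
        rw [← pow_add, show a + (M - a) = M by omega, pow_M H, mul_zero]

theorem unit_of (H : Chain R π q M) {j : ℕ} (hj : j < M) {y : R}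
    (h1 : y ∈ (Ideal.span {π ^ j} : Ideal R)) (h2 : y ∉ (Ideal.span {π ^ (j + 1)} : Ideal R)) :
    ∃ u : Rˣ, y = u * π ^ j := by
  obtain ⟨u, k, hk, rfl⟩ := H.rep y
  have h3 : k ≤ j := by
    by_contra h
    apply h2
    exact anti (show j + 1 ≤ k by omega) (Ideal.mul_mem_left _ _ (Ideal.mem_span_singleton_self _))
  have h4 : π ^ k ∈ (Ideal.span {π ^ j} : Ideal R) := by
    have h5 := Ideal.mul_mem_left _ ((u⁻¹ : Rˣ) : R) h1
    rwa [Units.inv_mul_cancel_left] at h5
  have h5 := le_of_mem H hj.le hk h4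
  have h6 : k = j := le_antisymm h3 h5
  subst h6
  exact ⟨u, rfl⟩

end

section Count

variable {R : Type} [CommRing R] [Fintype R] {π : R} {q M : ℕ}

open Classical in
/-- The elements of the ideal. -/
noncomputable def J (π : R) (j : ℕ) : Finset R :=
  Finset.univ.filter (fun y => y ∈ (Ideal.span {π ^ j} : Ideal R))

theorem mem_J {j : ℕ} {y : R} : y ∈ J π j ↔ y ∈ (Ideal.span {π ^ j} : Ideal R) := by
  classical
  rw [J, Finset.mem_filter]
  exact ⟨fun h => h.2, fun h => ⟨Finset.mem_univ _, h⟩⟩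

theorem card_J (H : Chain R π q M) {j : ℕ} (hj : j ≤ M) : (J π j).card = q ^ (M - j) := by
  classical
  rw [← H.card j hj, J, Nat.card_eq_fintype_card, ← Fintype.card_subtype]

open Classical in
/-- The number of `l` with `w l = c`. -/
noncomputable def sol (w c : R) : ℕ := (Finset.univ.filter fun l : R => w * l = c).card

theorem sol_eq (H : Chain R π q M) {i : ℕ} (hi : i < M) {w c : R}
    (h1 : w ∈ (Ideal.span {π ^ i} : Ideal R)) (h2 : w ∉ (Ideal.span {π ^ (i + 1)} : Ideal R))
    (hc : c ∈ (Ideal.span {π ^ i} : Ideal R)) : sol w c = q ^ i := by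
  classical
  obtain ⟨u, rfl⟩ := unit_of H hi h1 h2
  rw [mem_iff] at hc
  obtain ⟨e, rfl⟩ := hc
  have hu : (u : R) * ((u⁻¹ : Rˣ) : R) = 1 := Units.mul_inv u
  have h3 : (Finset.univ.filter fun l : R => (u : R) * π ^ i * l = e * π ^ i).card =
      (J π (M - i)).card := by
    refine Finset.card_nbij' (fun l => l - ((u⁻¹ : Rˣ) : R) * e) (fun y => y + ((u⁻¹ : Rˣ) : R) * e)
      ?_ ?_ ?_ ?_
    · intro l hl
      rw [Finset.mem_coe, Finset.mem_filter] at hl
      rw [Finset.mem_coe, mem_J, ← ann H hi.le]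
      have h := hl.2
      linear_combination ((u⁻¹ : Rˣ) : R) * h - (π ^ i * l) * hu
    · intro y hy
      rw [Finset.mem_coe, mem_J, ← ann H hi.le] at hy
      rw [Finset.mem_coe, Finset.mem_filter]
      refine ⟨Finset.mem_univ _, ?_⟩
      linear_combination (u : R) * hy + (π ^ i * e) * hu
    · intro l _
      simp
    · intro y _
      simp
  rw [sol, h3, card_J H (by omega)]
  congr 1
  omega

theorem sol_zero {i : ℕ} {w c : R} (h1 : w ∈ (Ideal.span {π ^ i} : Ideal R))
    (hc : c ∉ (Ideal.span {π ^ i} : Ideal R)) : sol w c = 0 := by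
  classical
  rw [sol, Finset.card_eq_zero, Finset.filter_eq_empty_iff]
  rintro l - rfl
  exact hc (Ideal.mul_mem_right _ _ h1)

/-- The number of pairs with `w` in the `j`-th ideal. -/
noncomputable def G (π : R) (j : ℕ) (c : R) : ℕ := ∑ w ∈ J π j, sol w c

theorem G_step (H : Chain R π q M) {j : ℕ} (hj : j < M) {c : R}
    (hc : c ∈ (Ideal.span {π ^ j} : Ideal R)) :
    G π j c = (q ^ M - q ^ (M - 1)) + G π (j + 1) c := by
  classical
  have hs : J π (j + 1) ⊆ J π j := by
    intro y hy
    rw [mem_J] at hy ⊢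
    exact anti (by omega) hy
  rw [G, G, ← Finset.sum_sdiff hs]
  congr 1
  have h1 : ∀ w ∈ J π j \ J π (j + 1), sol w c = q ^ j := by
    intro w hw
    rw [Finset.mem_sdiff, mem_J, mem_J] at hw
    exact sol_eq H hj hw.1 hw.2 hc
  rw [Finset.sum_congr rfl h1, Finset.sum_const, smul_eq_mul,
    Finset.card_sdiff_of_subset hs, card_J H (by omega), card_J H (by omega), Nat.sub_mul,
    ← pow_add, ← pow_add]
  congr 2
  · omega
  · omega

theorem G_top {k : ℕ} {c : R} (hc : c ∉ (Ideal.span {π ^ k} : Ideal R)) : G π k c = 0 := by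
  rw [G]
  refine Finset.sum_eq_zero fun w hw => ?_
  rw [mem_J] at hw
  exact sol_zero hw hc

theorem G_down (H : Chain R π q M) (k : ℕ) : k ≤ M → ∀ c : R,
    (∀ j, j < k → c ∈ (Ideal.span {π ^ j} : Ideal R)) →
    G π 0 c = k * (q ^ M - q ^ (M - 1)) + G π k c := by
  induction k with
  | zero => intro _ c _; simp
  | succ k ih =>
    intro hk c hc
    rw [ih (by omega) c fun j hj => hc j (by omega), G_step H (by omega) (hc k (by omega))]
    ring

theorem count (c : R) : {p : R × R | p.1 * p.2 = c}.ncard = G π 0 c := by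
  classical
  have h1 : {p : R × R | p.1 * p.2 = c} =
      (((Finset.univ : Finset (R × R)).filter fun p => p.1 * p.2 = c : Finset (R × R)) :
        Set (R × R)) := by
    ext p
    simp
  have h2 : J π 0 = Finset.univ := by
    ext y
    rw [mem_J, pow_zero, Ideal.span_singleton_one]
    simp
  rw [h1, Set.ncard_coe_finset, G, h2, Finset.card_filter, ← Finset.univ_product_univ,
    Finset.sum_product]
  refine Finset.sum_congr rfl fun w _ => ?_
  rw [sol, Finset.card_filter]

end Count

theorem t : Pool.Agent.Helper74.HG.CHW := by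
  classical
  intro R _ _ π q M hM hq hcard hrep
  have H : Chain R π q M := ⟨inferInstance, hM, hq, hcard, hrep⟩
  let _ : Fintype R := Fintype.ofFinite R
  refine ⟨?_, ?_⟩
  · intro k hk c h1 h2
    rw [count (π := π) c, G_down H (k + 1) (by omega) c fun j hj => anti (by omega) h1,
      G_top h2, add_zero]
  · rw [count (π := π) (0 : R), G_down H M le_rfl 0 fun j _ => Ideal.zero_mem _]
    congr 1
    have h2 : J π M = {0} := by
      ext y
      rw [mem_J, pow_M H, Finset.mem_singleton, Ideal.span_singleton_eq_bot.2 rfl, Ideal.mem_bot]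
    have h3 : (Finset.univ : Finset R).card = q ^ M := by
      have h4 := card_J H (j := 0) (by omega)
      have h5 : J π 0 = Finset.univ := by
        ext y
        rw [mem_J, pow_zero, Ideal.span_singleton_one]
        simp
      rwa [h5, Nat.sub_zero] at h4
    rw [G, h2, Finset.sum_singleton, sol, ← h3]
    congr 1
    ext l
    simp

end Pool.Agent.Helper96.HG.CHW
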